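import Pool.Agent.MP_c70b3b_mp.Defs

open MeasureTheory

namespace Pool.Agent.MP_c70b3b_mp

/-- A probability law of the spins whose conditional law on `C`, given the spins off `C`, is the
Boltzmann-Gibbs law with the fixed couplings `w`. -/
def IsGibbsIn (β : ℝ) (w : (ℤ × ℤ) × Bool → ℝ) (C : Finset (ℤ × ℤ))
    (μ : Measure (ℤ × ℤ → Units ℤ)) : Prop :=
  IsProbabilityMeasure μ ∧ ∀ η : C → Units ℤ,
    μ[Set.indicator {s | ∀ x : C, s x = η x} (fun _ => (1 : ℝ)) |
      MeasurableSpace.comap (fun (s : ℤ × ℤ → Units ℤ) (x : {x // x ∉ C}) => s x) inferInstance]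
      =ᵐ[μ] fun s => boltz β C η (w, s)

end Pool.Agent.MP_c70b3b_mp
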